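import Pool.Agent.N356.SP.DefsK

set_option autoImplicit false

/-! GK4b (project LK of helper356): the numerical inequality for multiplicities. -/

namespace Pool.Agent.N106.LK

open Finset Pool.Agent.H384R3.SPk Pool.Agent.N356.SP

variable {Γ : Type*} [AddCommGroup Γ]

open Classical in
theorem half_exists : ∀ (n : ℕ) (C : Finset Γ), C.card = n → (∀ s ∈ C, -s ∈ C) →
    (∀ s ∈ C, s ≠ -s) → ∃ R ⊆ C, ∀ F : Γ → ℝ, (∀ c ∈ C, F (-c) = F c) →
      ∑ c ∈ C, F c = 2 * ∑ c ∈ R, F c := by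
  intro n
  induction n using Nat.strong_induction_on with
  | _ n ih =>
    intro C hCn hneg hne
    rcases C.eq_empty_or_nonempty with h | ⟨c, hc⟩
    · exact ⟨∅, Finset.empty_subset _, fun F _ => by simp [h]⟩
    · set C' : Finset Γ := (C.erase c).erase (-c) with hC'
      have hc1 : -c ∈ C.erase c := Finset.mem_erase.2 ⟨fun h => hne c hc h.symm, hneg c hc⟩
      have hcard : C'.card < n := by
        have h1 := Finset.card_erase_of_mem hc
        have h2 := Finset.card_erase_of_mem hc1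
        have h3 : 0 < C.card := Finset.card_pos.2 ⟨c, hc⟩
        rw [hC', h2, h1]
        omega
      have hsub : C' ⊆ C := (Finset.erase_subset _ _).trans (Finset.erase_subset _ _)
      obtain ⟨R, hR, hF⟩ := ih C'.card hcard C' rfl
        (fun s hs => by
          have hs1 := Finset.mem_erase.1 hs
          have hs2 := Finset.mem_erase.1 hs1.2
          refine Finset.mem_erase.2 ⟨fun h => hs2.1 (neg_injective h), Finset.mem_erase.2
            ⟨fun h => hs1.1 ?_, hneg s hs2.2⟩⟩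
          rw [← h, neg_neg])
        (fun s hs => hne s (hsub hs))
      have hcR : c ∉ R := fun h => by
        have h1 := (Finset.mem_erase.1 (hR h)).2
        exact (Finset.mem_erase.1 h1).1 rfl
      refine ⟨insert c R, Finset.insert_subset hc (hR.trans hsub), fun F hFe => ?_⟩
      rw [Finset.sum_insert hcR, mul_add, ← hF F fun x hx => hFe x (hsub hx)]
      rw [← Finset.add_sum_erase C F hc, ← Finset.add_sum_erase (C.erase c) F hc1, hFe c hc]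
      ring

theorem numer_m_of (numer : ∀ (s : Finset Γ) (N d : Γ → ℤ), (∀ i ∈ s, 0 ≤ d i) →
    (∀ i ∈ s, d i ≤ N i) → (∀ i ∈ s, (2:ℤ) ∣ N i - d i) → ∀ M : ℤ, ∑ i ∈ s, N i = M →
    (2:ℤ) ∣ M → 4 ≤ M → (∀ i ∈ s, N i = M → d i = 0) →
    6 * (∑ i ∈ s, N i * (M - N i) * (M - 2 * N i)) + 6 * (∑ i ∈ s, d i ^ 2 * (3 * M - 2 * N i)) ≤
      (M ^ 2 - ∑ i ∈ s, N i ^ 2 + ∑ i ∈ s, d i ^ 2) *
        (M ^ 2 - ∑ i ∈ s, N i ^ 2 + 3 * ∑ i ∈ s, d i ^ 2))
    {C : Finset Γ} (hneg : ∀ s ∈ C, -s ∈ C) (hne : ∀ s ∈ C, s ≠ -s) (m : Γ → ℕ)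
    {K : ℕ} (hK : 2 ≤ K) (hm : ∑ v ∈ C, m v = 2 * K)
    (h3 : ∀ c ∈ C, m c + m (-c) = 2 * K → m c = m (-c)) :
    1 / 6 * (mP C (fun v => (m v : ℝ)) + mD C (fun v => (m v : ℝ))) * mP C (fun v => (m v : ℝ)) ≤
      4 * ((K:ℝ) - 1) * K ^ 3 - 2 * ((K:ℝ) - 1) * (2 * K - 1) * mS C (fun v => (m v : ℝ)) +
        mS4 C (fun v => (m v : ℝ)) := by
  obtain ⟨R, hR, hF⟩ := half_exists C.card C rfl hneg hne
  set u : Γ → ℝ := fun v => (m v : ℝ) with hu
  set N : Γ → ℤ := fun v => (m v : ℤ) + m (-v) with hN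
  set d : Γ → ℤ := fun v => |(m v : ℤ) - m (-v)| with hd
  have hmR : ∑ v ∈ C, u v = 2 * K := by
    have h1 : (∑ v ∈ C, (m v : ℝ)) = 2 * K := by exact_mod_cast hm
    exact h1
  have hnegsum : ∑ v ∈ C, u (-v) = ∑ v ∈ C, u v := by
    refine Finset.sum_nbij' (fun v => -v) (fun v => -v) hneg hneg (fun v _ => neg_neg v)
      (fun v _ => neg_neg v) fun v _ => rfl
  have hNR : ∑ v ∈ R, ((N v : ℤ) : ℝ) = 2 * K := by
    have h1 := hF (fun v => u v + u (-v)) (fun c _ => by simp only [neg_neg]; ring)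
    rw [Finset.sum_add_distrib, hnegsum, hmR] at h1
    have h2 : ∀ v, ((N v : ℤ) : ℝ) = u v + u (-v) := fun v => by simp [hN, hu]
    rw [Finset.sum_congr rfl fun v _ => h2 v]
    linarith
  have hNZ : ∑ v ∈ R, N v = ((2 * K : ℕ) : ℤ) := by
    have h1 : ((∑ v ∈ R, N v : ℤ) : ℝ) = (((2 * K : ℕ) : ℤ) : ℝ) := by
      rw [Int.cast_sum, hNR]
      push_cast
      ring
    exact_mod_cast h1
  have hnum := numer R N d (fun i _ => abs_nonneg _) (fun i _ => by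
      simp only [hN, hd]
      rw [abs_le]
      constructor <;> omega) (fun i _ => by
      simp only [hN, hd]
      rcases abs_cases ((m i : ℤ) - m (-i)) with ⟨h, -⟩ | ⟨h, -⟩ <;> rw [h] <;> omega)
    ((2 * K : ℕ) : ℤ) hNZ (by push_cast; exact dvd_mul_right _ _) (by push_cast; omega)
    (fun i hi h => by
      have h4 : m i + m (-i) = 2 * K := by
        have : ((m i : ℤ) + m (-i)) = ((2 * K : ℕ) : ℤ) := h
        exact_mod_cast this
      have h5 := h3 i (hR hi) h4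
      simp only [hd]
      rw [← h5, sub_self, abs_zero])
  have hnumR : (6 * (∑ i ∈ R, (N i : ℝ) * (2 * K - N i) * (2 * K - 2 * N i)) +
      6 * (∑ i ∈ R, (d i : ℝ) ^ 2 * (3 * (2 * K) - 2 * N i)) : ℝ) ≤
      ((2 * K) ^ 2 - ∑ i ∈ R, (N i : ℝ) ^ 2 + ∑ i ∈ R, (d i : ℝ) ^ 2) *
        ((2 * K) ^ 2 - ∑ i ∈ R, (N i : ℝ) ^ 2 + 3 * ∑ i ∈ R, (d i : ℝ) ^ 2) := by
    have := (Int.cast_le (R := ℝ)).2 hnum
    push_cast at this
    exact this
  have eN : ∀ v, ((N v : ℤ) : ℝ) = u v + u (-v) := fun v => by simp [hN, hu]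
  have ed : ∀ v, ((d v : ℤ) : ℝ) ^ 2 = (u v - u (-v)) ^ 2 := fun v => by
    simp only [hd, hu]
    rw [Int.cast_abs, sq_abs]
    push_cast
    ring
  have e1 : ∑ v ∈ C, (u v + u (-v)) ^ 2 = 2 * ∑ v ∈ R, (N v : ℝ) ^ 2 := by
    rw [hF (fun v => (u v + u (-v)) ^ 2) (fun c _ => by simp only [neg_neg]; ring)]
    congr 1
    exact Finset.sum_congr rfl fun v _ => by rw [eN]
  have e2 : ∑ v ∈ C, (u v - u (-v)) ^ 2 = 2 * ∑ v ∈ R, (d v : ℝ) ^ 2 := by
    rw [hF (fun v => (u v - u (-v)) ^ 2) (fun c _ => by simp only [neg_neg]; ring)]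
    congr 1
    exact Finset.sum_congr rfl fun v _ => by rw [ed]
  have e3 : ∑ v ∈ C, u v * u (-v) =
      1 / 2 * (∑ v ∈ R, (N v : ℝ) ^ 2 - ∑ v ∈ R, (d v : ℝ) ^ 2) := by
    rw [hF (fun v => u v * u (-v)) (fun c _ => by simp only [neg_neg]; ring),
      ← Finset.sum_sub_distrib, Finset.mul_sum, Finset.mul_sum]
    exact Finset.sum_congr rfl fun v _ => by rw [eN, ed]; ring
  have e4 : ∑ v ∈ C, u v * u (-v) * (u v + u (-v) - 1) =
      1 / 2 * (∑ v ∈ R, (N v : ℝ) ^ 3 - ∑ v ∈ R, (d v : ℝ) ^ 2 * N v -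
        ∑ v ∈ R, (N v : ℝ) ^ 2 + ∑ v ∈ R, (d v : ℝ) ^ 2) := by
    rw [hF (fun v => u v * u (-v) * (u v + u (-v) - 1)) (fun c _ => by simp only [neg_neg]; ring),
      ← Finset.sum_sub_distrib, ← Finset.sum_sub_distrib, ← Finset.sum_add_distrib,
      Finset.mul_sum, Finset.mul_sum]
    exact Finset.sum_congr rfl fun v _ => by rw [eN, ed]; ring
  have e5 : ∑ i ∈ R, (N i : ℝ) * (2 * K - N i) * (2 * K - 2 * N i) =
      (2 * K) ^ 3 - 3 * (2 * K) * ∑ v ∈ R, (N v : ℝ) ^ 2 + 2 * ∑ v ∈ R, (N v : ℝ) ^ 3 := by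
    have h1 : ((2 * K) ^ 3 : ℝ) = (2 * K) ^ 2 * ∑ v ∈ R, (N v : ℝ) := by rw [hNR]; ring
    rw [h1, Finset.mul_sum, Finset.mul_sum, Finset.mul_sum, ← Finset.sum_sub_distrib,
      ← Finset.sum_add_distrib]
    exact Finset.sum_congr rfl fun v _ => by ring
  have e6 : ∑ i ∈ R, (d i : ℝ) ^ 2 * (3 * (2 * K) - 2 * N i) =
      3 * (2 * K) * ∑ v ∈ R, (d v : ℝ) ^ 2 - 2 * ∑ v ∈ R, (d v : ℝ) ^ 2 * N v := by
    rw [Finset.mul_sum, Finset.mul_sum, ← Finset.sum_sub_distrib]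
    exact Finset.sum_congr rfl fun v _ => by ring
  rw [e5, e6] at hnumR
  unfold mS4 mS mP mD
  rw [hmR, e1, e2, e3, e4]
  nlinarith [hnumR]
end Pool.Agent.N106.LK
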